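import Pool.Agent.Lib.MP_fdcb14_pr.W.Interfaces

/-!
# RUN: a run of a machine with finitely many noise sites
-/

set_option autoImplicit false

namespace Pool.Agent.Lib.MP_fdcb14_pr.H47

open MeasureTheory ProbabilityTheory

/-! ### The finite expectation -/

section finite

variable {G X : Type} {ε : ℝ} (Z : Finset G)

theorem pr_nonneg (h0 : 0 < ε) (h1 : ε ≤ 1 / 2) (e : Err) : 0 ≤ pr ε e := by
  cases e <;> simp only [pr] <;> linarith

theorem sum_pr : ∑ e : Err, pr ε e = 1 := by
  have : (Finset.univ : Finset Err) = {Err.keep, Err.zero, Err.one} := rfl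
  rw [this, Finset.sum_insert (by simp), Finset.sum_insert (by simp), Finset.sum_singleton]
  simp only [pr]
  ring

theorem Ex_const (c : ℝ) : Ex ε Z (fun _ => c) = c := by
  classical
  unfold Ex
  rw [← Finset.sum_mul]
  have h : ∑ e : (Z → Err), ∏ v : Z, pr ε (e v) = 1 := by
    have h1 := Finset.prod_univ_sum (fun _ : Z => (Finset.univ : Finset Err))
      (fun _ e => pr ε e)
    rw [Fintype.piFinset_univ] at h1
    rw [← h1]
    simp [sum_pr]
  rw [h, one_mul]

theorem Ex_mono (h0 : 0 < ε) (h1 : ε ≤ 1 / 2) {f g : (G → Err) → ℝ} (h : ∀ η, f η ≤ g η) :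
    Ex ε Z f ≤ Ex ε Z g := by
  unfold Ex
  exact Finset.sum_le_sum fun e _ => mul_le_mul_of_nonneg_left (h _)
    (Finset.prod_nonneg fun v _ => pr_nonneg h0 h1 _)

theorem Ex_add (f g : (G → Err) → ℝ) : Ex ε Z (fun η => f η + g η) = Ex ε Z f + Ex ε Z g := by
  unfold Ex
  rw [← Finset.sum_add_distrib]
  exact Finset.sum_congr rfl fun e _ => by ring

theorem Ex_mul (c : ℝ) (f : (G → Err) → ℝ) : Ex ε Z (fun η => c * f η) = c * Ex ε Z f := by
  unfold Ex
  rw [Finset.mul_sum]
  exact Finset.sum_congr rfl fun e _ => by ring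

theorem Ex_sum {κ : Type} (s : Finset κ) (f : κ → (G → Err) → ℝ) :
    Ex ε Z (fun η => ∑ i ∈ s, f i η) = ∑ i ∈ s, Ex ε Z (f i) := by
  classical
  induction s using Finset.induction_on with
  | empty => simp only [Finset.sum_empty]; exact Ex_const Z 0
  | insert a s ha ih =>
    simp only [Finset.sum_insert ha]
    rw [Ex_add, ih]

end finite

/-! ### The probability of an unfinished run -/

section walk

variable {G X : Type} (f : X → (G → Err) → X) (P : X → Prop) (Z : Finset G) (ε : ℝ)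

open Classical in
/-- the probability that the run of `t` steps is unfinished -/
noncomputable def uu : ℕ → X → ℝ
  | 0, x => if P x then 1 else 0
  | t + 1, x => Ex ε Z fun η => uu t (f x η)

variable {f P Z ε}

theorem uu_nonneg (h0 : 0 < ε) (h1 : ε ≤ 1 / 2) (t : ℕ) : ∀ x, 0 ≤ uu f P Z ε t x := by
  induction t with
  | zero =>
    intro x
    unfold uu
    split_ifs <;> norm_num
  | succ t ih =>
    intro x
    have := Ex_mono Z h0 h1 (f := fun _ => 0) (g := fun η => uu f P Z ε t (f x η))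
      fun η => ih _
    rw [Ex_const] at this
    exact this

theorem uu_le_one (h0 : 0 < ε) (h1 : ε ≤ 1 / 2) (t : ℕ) : ∀ x, uu f P Z ε t x ≤ 1 := by
  induction t with
  | zero =>
    intro x
    unfold uu
    split_ifs <;> norm_num
  | succ t ih =>
    intro x
    have := Ex_mono Z h0 h1 (g := fun _ => 1) (f := fun η => uu f P Z ε t (f x η))
      fun η => ih _
    rw [Ex_const] at this
    exact this

theorem uu_zero (habs : ∀ x η, ¬ P x → ¬ P (f x η)) (t : ℕ) :
    ∀ x, ¬ P x → uu f P Z ε t x = 0 := by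
  induction t with
  | zero =>
    intro x hx
    unfold uu
    rw [if_neg hx]
  | succ t ih =>
    intro x hx
    unfold uu
    have : (fun η => uu f P Z ε t (f x η)) = fun _ => 0 := by
      funext η
      exact ih _ (habs x η hx)
    rw [this, Ex_const]

theorem uu_succ_le (h0 : 0 < ε) (h1 : ε ≤ 1 / 2) (habs : ∀ x η, ¬ P x → ¬ P (f x η)) (t : ℕ) :
    ∀ x, uu f P Z ε (t + 1) x ≤ uu f P Z ε t x := by
  induction t with
  | zero =>
    intro x
    by_cases hx : P x
    · have h2 : uu f P Z ε 0 x = 1 := by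
        unfold uu
        rw [if_pos hx]
      rw [h2]
      exact uu_le_one h0 h1 1 x
    · rw [uu_zero habs 1 x hx]
      exact uu_nonneg h0 h1 0 x
  | succ t ih =>
    intro x
    exact Ex_mono Z h0 h1 fun η => ih _

theorem uu_anti (h0 : 0 < ε) (h1 : ε ≤ 1 / 2) (habs : ∀ x η, ¬ P x → ¬ P (f x η)) (x : X) :
    Antitone fun t => uu f P Z ε t x :=
  antitone_nat_of_succ_le fun t => uu_succ_le h0 h1 habs t x

/-- the expected number of unfinished steps -/
theorem sum_uu_le (h0 : 0 < ε) (h1 : ε ≤ 1 / 2) (habs : ∀ x η, ¬ P x → ¬ P (f x η))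
    {V : X → ℝ} {c : ℝ} (hc : 0 < c) (hV : ∀ x, 0 ≤ V x)
    (hdrift : ∀ x, P x → Ex ε Z (fun η => V (f x η)) ≤ V x - c) (T : ℕ) :
    ∀ x, ∑ s ∈ Finset.range T, uu f P Z ε s x ≤ V x / c := by
  induction T with
  | zero =>
    intro x
    simp only [Finset.range_zero, Finset.sum_empty]
    exact div_nonneg (hV x) hc.le
  | succ T ih =>
    intro x
    by_cases hx : P x
    · rw [Finset.sum_range_succ']
      have h2 : uu f P Z ε 0 x = 1 := by
        unfold uu
        rw [if_pos hx]
      have h3 : ∑ s ∈ Finset.range T, uu f P Z ε (s + 1) x =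
          Ex ε Z fun η => ∑ s ∈ Finset.range T, uu f P Z ε s (f x η) := by
        rw [Ex_sum]
        rfl
      have h4 : Ex ε Z (fun η => ∑ s ∈ Finset.range T, uu f P Z ε s (f x η)) ≤
          Ex ε Z (fun η => c⁻¹ * V (f x η)) := by
        refine Ex_mono Z h0 h1 fun η => (ih _).trans (le_of_eq ?_)
        rw [div_eq_inv_mul]
      rw [Ex_mul] at h4
      rw [h2, h3]
      have h5 := mul_le_mul_of_nonneg_left (hdrift x hx) (inv_nonneg.2 hc.le)
      have h6 : c⁻¹ * (V x - c) = V x / c - 1 := by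
        field_simp
      linarith
    · rw [Finset.sum_eq_zero fun s _ => uu_zero habs s x hx]
      exact div_nonneg (hV x) hc.le

theorem uu_half (h0 : 0 < ε) (h1 : ε ≤ 1 / 2) (habs : ∀ x η, ¬ P x → ¬ P (f x η))
    {V : X → ℝ} {c V0 : ℝ} (hc : 0 < c) (hV : ∀ x, 0 ≤ V x ∧ (P x → V x ≤ V0))
    (hdrift : ∀ x, P x → Ex ε Z (fun η => V (f x η)) ≤ V x - c) (l0 : ℕ)
    (hl0 : 2 * V0 / c ≤ l0) (x : X) : uu f P Z ε l0 x ≤ 1 / 2 * uu f P Z ε 0 x := by
  by_cases hx : P x
  · have h2 : uu f P Z ε 0 x = 1 := by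
      unfold uu
      rw [if_pos hx]
    rw [h2]
    have h3 : c ≤ V x := by
      have h4 := hdrift x hx
      have h5 := Ex_mono Z h0 h1 (f := fun _ => 0) (g := fun η => V (f x η)) fun η => (hV _).1
      rw [Ex_const] at h5
      linarith
    have hV0 : V x ≤ V0 := (hV x).2 hx
    have hl : (0 : ℝ) < l0 := by
      refine lt_of_lt_of_le ?_ hl0
      have : 0 < V0 := by linarith
      positivity
    have h6 := sum_uu_le (Z := Z) h0 h1 habs hc (fun y => (hV y).1) hdrift l0 x
    have h7 : (l0 : ℝ) * uu f P Z ε l0 x ≤ ∑ s ∈ Finset.range l0, uu f P Z ε s x := by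
      have : ∑ _s ∈ Finset.range l0, uu f P Z ε l0 x ≤
          ∑ s ∈ Finset.range l0, uu f P Z ε s x :=
        Finset.sum_le_sum fun s hs => uu_anti h0 h1 habs x (Finset.mem_range.1 hs).le
      simpa using this
    have h8 : V x / c ≤ V0 / c := div_le_div_of_nonneg_right hV0 hc.le
    have h9 : V0 / c ≤ l0 / 2 := by
      have : 2 * V0 / c = 2 * (V0 / c) := by ring
      linarith
    have h10 : (l0 : ℝ) * uu f P Z ε l0 x ≤ l0 * (1 / 2) := by linarith
    have := le_of_mul_le_mul_left h10 hl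
    linarith
  · rw [uu_zero habs l0 x hx, uu_zero habs 0 x hx]
    norm_num

theorem uu_add (h0 : 0 < ε) (h1 : ε ≤ 1 / 2) {l0 : ℕ}
    (hhalf : ∀ x, uu f P Z ε l0 x ≤ 1 / 2 * uu f P Z ε 0 x) (t : ℕ) :
    ∀ x, uu f P Z ε (t + l0) x ≤ 1 / 2 * uu f P Z ε t x := by
  induction t with
  | zero =>
    intro x
    rw [Nat.zero_add]
    exact hhalf x
  | succ t ih =>
    intro x
    have h2 : t + 1 + l0 = (t + l0) + 1 := by omega
    rw [h2]
    have h3 : Ex ε Z (fun η => uu f P Z ε (t + l0) (f x η)) ≤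
        Ex ε Z (fun η => 1 / 2 * uu f P Z ε t (f x η)) := Ex_mono Z h0 h1 fun η => ih _
    rw [Ex_mul] at h3
    exact h3

theorem uu_pow (h0 : 0 < ε) (h1 : ε ≤ 1 / 2) {l0 : ℕ}
    (hhalf : ∀ x, uu f P Z ε l0 x ≤ 1 / 2 * uu f P Z ε 0 x) (q : ℕ) (x : X) :
    uu f P Z ε (q * l0) x ≤ (1 / 2) ^ q := by
  induction q with
  | zero =>
    rw [Nat.zero_mul, pow_zero]
    exact uu_le_one h0 h1 0 x
  | succ q ih =>
    rw [Nat.succ_mul, pow_succ]
    have := uu_add h0 h1 hhalf (q * l0) x
    linarith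

end walk

/-! ### The bridge to the probability space -/

section bridge

variable {G X : Type} {f : X → (G → Err) → X} {P : X → Prop} {Z : Finset G} {ε : ℝ}

theorem run_succ' (f : X → (G → Err) → X) (x : X) (ξ : ℕ → G → Err) (t : ℕ) :
    run f x ξ (t + 1) = run f (f x (ξ 0)) (fun s => ξ (1 + s)) t := by
  induction t with
  | zero => rfl
  | succ t ih =>
    change f (run f x ξ (t + 1)) (ξ (t + 1)) = f (run f (f x (ξ 0)) (fun s => ξ (1 + s)) t) _
    rw [ih, Nat.add_comm t 1]

theorem run_congr (hloc : ∀ x η η', (∀ w ∈ Z, η w = η' w) → f x η = f x η')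
    (ξ ξ' : ℕ → G → Err) (t : ℕ) (h : ∀ s < t, ∀ w ∈ Z, ξ s w = ξ' s w) (x : X) :
    run f x ξ t = run f x ξ' t := by
  induction t with
  | zero => rfl
  | succ t ih =>
    change f (run f x ξ t) (ξ t) = f (run f x ξ' t) (ξ' t)
    rw [ih fun s hs => h s (Nat.lt_succ_of_lt hs)]
    exact hloc _ _ _ (h t (Nat.lt_succ_self t))

variable {Ω : Type*} [MeasurableSpace Ω] {μ : Measure Ω} [IsProbabilityMeasure μ]
  {ξ : ℕ → G → Ω → Err}

theorem measure_err (h0 : 0 < ε) (hξ : IsNoise μ ξ ε) (t : ℕ) (v : G)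
    (e : Err) : μ (ξ t v ⁻¹' {e}) = ENNReal.ofReal (pr ε e) := by
  have hone : μ (ξ t v ⁻¹' {Err.one}) = ENNReal.ofReal ε := hξ.one t v
  have hzero : μ (ξ t v ⁻¹' {Err.zero}) = ENNReal.ofReal ε := hξ.zero t v
  have hm : ∀ e : Err, MeasurableSet (ξ t v ⁻¹' {e}) := fun e =>
    hξ.meas t v (MeasurableSpace.measurableSet_top)
  cases e with
  | one => exact hone
  | zero => exact hzero
  | keep =>
    have hdis : Disjoint (ξ t v ⁻¹' {Err.one}) (ξ t v ⁻¹' {Err.zero}) := by
      rw [Set.disjoint_left]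
      intro ω h2 h3
      simp only [Set.mem_preimage, Set.mem_singleton_iff] at h2 h3
      rw [h2] at h3
      exact absurd h3 (by simp)
    have hU : μ (ξ t v ⁻¹' {Err.one} ∪ ξ t v ⁻¹' {Err.zero}) = ENNReal.ofReal (2 * ε) := by
      rw [measure_union hdis (hm _), hone, hzero, ← ENNReal.ofReal_add h0.le h0.le]
      congr 1
      ring
    have hcompl : ξ t v ⁻¹' {Err.keep} = (ξ t v ⁻¹' {Err.one} ∪ ξ t v ⁻¹' {Err.zero})ᶜ := by
      ext ω
      simp only [Set.mem_preimage, Set.mem_singleton_iff, Set.mem_compl_iff, Set.mem_union]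
      cases ξ t v ω <;> simp
    rw [hcompl, prob_compl_eq_one_sub ((hm _).union (hm _)), hU, pr,
      ← ENNReal.ofReal_one, ENNReal.ofReal_sub _ (by positivity)]

open Classical in
/-- the probability of a run is given by the finite walk -/
theorem bridge (h0 : 0 < ε) (h1 : ε ≤ 1 / 2) (hξ : IsNoise μ ξ ε)
    (hloc : ∀ x η η', (∀ w ∈ Z, η w = η' w) → f x η = f x η') (t : ℕ) :
    ∀ (x : X) (t0 : ℕ), μ {ω | P (run f x (fun s v => ξ (t0 + s) v ω) t)} ≤
      ENNReal.ofReal (uu f P Z ε t x) := by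
  induction t with
  | zero =>
    intro x t0
    by_cases hx : P x
    · have : uu f P Z ε 0 x = 1 := by
        unfold uu
        rw [if_pos hx]
      rw [this, ENNReal.ofReal_one]
      exact prob_le_one
    · have : {ω | P (run f x (fun s v => ξ (t0 + s) v ω) 0)} = ∅ := by
        ext ω
        simp only [Set.mem_ofPred_eq, Set.mem_empty_iff_false, iff_false]
        exact hx
      rw [this, measure_empty]
      exact zero_le
  | succ t ih =>
    intro x t0
    -- decompose according to the first noise configuration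
    have hsub : {ω | P (run f x (fun s v => ξ (t0 + s) v ω) (t + 1))} ⊆
        ⋃ e ∈ (Finset.univ : Finset (Z → Err)), ({ω | ∀ v : Z, ξ t0 v ω = e v} ∩
          {ω | P (run f (f x (ext Z e)) (fun s v => ξ (t0 + 1 + s) v ω) t)}) := by
      intro ω hω
      rw [Set.mem_iUnion₂]
      refine ⟨fun v => ξ t0 v ω, Finset.mem_univ _, fun v => rfl, ?_⟩
      simp only [Set.mem_ofPred_eq] at hω ⊢
      rw [run_succ'] at hω
      have h2 : f x (fun v => ξ (t0 + 0) v ω) = f x (ext Z fun v => ξ t0 v ω) := by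
        refine hloc _ _ _ fun w hw => ?_
        simp only [Nat.add_zero, ext, hw, dif_pos]
      rw [← h2]
      have h3 : (fun s v => ξ (t0 + (1 + s)) v ω) = fun s v => ξ (t0 + 1 + s) v ω := by
        funext s v
        rw [Nat.add_assoc]
      rw [← h3]
      exact hω
    refine (measure_mono hsub).trans ((measure_biUnion_finset_le _ _).trans ?_)
    have hterm : ∀ e : Z → Err, μ ({ω | ∀ v : Z, ξ t0 v ω = e v} ∩
          {ω | P (run f (f x (ext Z e)) (fun s v => ξ (t0 + 1 + s) v ω) t)}) ≤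
        ENNReal.ofReal ((∏ v : Z, pr ε (e v)) * uu f P Z ε t (f x (ext Z e))) := by
      intro e
      set x' := f x (ext Z e) with hx'
      -- the two groups of noise variables
      let S1 : Finset (ℕ × G) := {t0} ×ˢ Z
      let S2 : Finset (ℕ × G) := Finset.Ico (t0 + 1) (t0 + 1 + t) ×ˢ Z
      have hdis : Disjoint S1 S2 := by
        rw [Finset.disjoint_left]
        rintro ⟨s, v⟩ h2 h3
        simp only [S1, S2, Finset.mem_product, Finset.mem_singleton, Finset.mem_Ico] at h2 h3
        omega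
      have hind := hξ.indep.indepFun_finset S1 S2 hdis fun p => hξ.meas p.1 p.2
      let A : Set (S1 → Err) := {a | ∀ (v : G) (hv : v ∈ Z), a ⟨(t0, v), by
        simp [S1, hv]⟩ = e ⟨v, hv⟩}
      let B : Set (S2 → Err) := {b | P (run f x' (fun s v =>
        if h : ((t0 + 1 + s, v) : ℕ × G) ∈ S2 then b ⟨(t0 + 1 + s, v), h⟩ else Err.keep) t)}
      have hA : {ω | ∀ v : Z, ξ t0 v ω = e v} = (fun ω (i : S1) => ξ i.1.1 i.1.2 ω) ⁻¹' A := by
        ext ω
        simp only [Set.mem_ofPred_eq, Set.mem_preimage, A]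
        constructor
        · intro h v hv
          exact h ⟨v, hv⟩
        · intro h v
          exact h v.1 v.2
      have hB : {ω | P (run f x' (fun s v => ξ (t0 + 1 + s) v ω) t)} =
          (fun ω (i : S2) => ξ i.1.1 i.1.2 ω) ⁻¹' B := by
        ext ω
        simp only [Set.mem_ofPred_eq, Set.mem_preimage, B]
        have : run f x' (fun s v => ξ (t0 + 1 + s) v ω) t = run f x' (fun s v =>
            if h : ((t0 + 1 + s, v) : ℕ × G) ∈ S2 then ξ (t0 + 1 + s) v ω else Err.keep) t := by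
          refine run_congr hloc _ _ t (fun s hs w hw => ?_) x'
          have hmem : ((t0 + 1 + s, w) : ℕ × G) ∈ S2 := by
            simp only [S2, Finset.mem_product, Finset.mem_Ico]
            exact ⟨⟨by omega, by omega⟩, hw⟩
          rw [dif_pos hmem]
        rw [this]
      have hmA : MeasurableSet A := (Set.toFinite A).measurableSet
      have hmB : MeasurableSet B := (Set.toFinite B).measurableSet
      rw [hA, hB, hind.measure_inter_preimage_eq_mul _ _ hmA hmB, ← hA, ← hB]
      have hAprob : μ {ω | ∀ v : Z, ξ t0 v ω = e v} = ENNReal.ofReal (∏ v : Z, pr ε (e v)) := by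
        have h2 : {ω | ∀ v : Z, ξ t0 v ω = e v} =
            ⋂ p ∈ S1, (fun ω => ξ p.1 p.2 ω) ⁻¹'
              {if h : p.2 ∈ Z then e ⟨p.2, h⟩ else Err.keep} := by
          ext ω
          simp only [Set.mem_ofPred_eq, Set.mem_iInter, Set.mem_preimage,
            Set.mem_singleton_iff]
          constructor
          · rintro h ⟨s, v⟩ hp
            simp only [S1, Finset.mem_product, Finset.mem_singleton] at hp
            obtain ⟨rfl, hv⟩ := hp
            simp only [hv, dif_pos]
            exact h ⟨v, hv⟩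
          · intro h v
            have := h (t0, v) (by simp [S1])
            simp only [v.2, dif_pos] at this
            exact this
        rw [h2, hξ.indep.measure_inter_preimage_eq_mul S1 fun p _ =>
          MeasurableSpace.measurableSet_top]
        rw [ENNReal.ofReal_prod_of_nonneg fun v _ => pr_nonneg h0 h1 _]
        have h3 : ∀ p ∈ S1, μ ((fun ω => ξ p.1 p.2 ω) ⁻¹'
              {if h : p.2 ∈ Z then e ⟨p.2, h⟩ else Err.keep}) =
            ENNReal.ofReal (pr ε (if h : p.2 ∈ Z then e ⟨p.2, h⟩ else Err.keep)) :=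
          fun p _ => measure_err h0 hξ _ _ _
        rw [Finset.prod_congr rfl h3, Finset.prod_product, Finset.prod_singleton]
        rw [← Finset.prod_coe_sort Z]
        refine Finset.prod_congr rfl fun v _ => ?_
        simp
      rw [hAprob, ENNReal.ofReal_mul (Finset.prod_nonneg fun v _ => pr_nonneg h0 h1 _)]
      gcongr
      exact ih x' (t0 + 1)
    refine (Finset.sum_le_sum fun e _ => hterm e).trans (le_of_eq ?_)
    rw [← ENNReal.ofReal_sum_of_nonneg fun e _ => mul_nonneg
      (Finset.prod_nonneg fun v _ => pr_nonneg h0 h1 _) (uu_nonneg h0 h1 t _)]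
    rfl

end bridge

theorem runS.{u} : RUN_S.{u} := by
  intro G X f P V Z ε c V0 h0 h1 hc hV hloc habs hdrift l0 q hl0 x0 Ω _ μ _ ξ hξ t0
  refine (bridge (Z := Z) h0 h1 hξ hloc (q * l0) x0 t0).trans ?_
  refine ENNReal.ofReal_le_ofReal ?_
  exact uu_pow h0 h1 (fun x => uu_half h0 h1 habs hc hV hdrift l0 hl0 x) q x0

end Pool.Agent.Lib.MP_fdcb14_pr.H47
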